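import Pool.Agent.H997.RNP.NE

/-!
Each level of the space embeds biLipschitzly into the plane.
-/
namespace Pool.Agent.H997.RNP

open Filter Topology MeasureTheory Set BoundedContinuousFunction

/-- `k`-th term of the digit sum of `x` -/
noncomputable def dg (x : X) (k : ℕ) : ℝ := if x.1.2.2 k = 0 then 0 else w x.1.1 k

/-- digit sum -/
noncomputable def S (x : X) : ℝ := ∑' k, dg x k

lemma w_eq (n k : ℕ) : w n k = (1 / (4 * ((n:ℝ) + 1))) ^ (k + 1) := by
  unfold w; rw [one_div_pow]

lemma q_lt (n : ℕ) : 1 / (4 * ((n:ℝ) + 1)) ≤ 1 / 4 := by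
  have : (0:ℝ) ≤ n := Nat.cast_nonneg n
  apply one_div_le_one_div_of_le <;> linarith

lemma hasSum_w (n k : ℕ) : HasSum (fun j => w n (j + k))
    (w n k * (1 - 1 / (4 * ((n:ℝ) + 1)))⁻¹) := by
  have hq := q_lt n
  have h := (hasSum_geometric_of_lt_one (r := 1 / (4 * ((n:ℝ) + 1))) (by positivity)
    (by linarith)).mul_left (w n k)
  refine h.congr_fun ?_ |> fun h => h
  intro j
  rw [w_eq, w_eq, ← pow_add]
  congr 1
  omega

lemma dg_nonneg (x : X) (k : ℕ) : 0 ≤ dg x k := by
  unfold dg; split_ifs
  · exact le_rfl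
  · exact (w_pos _ _).le

lemma dg_le (x : X) (k : ℕ) : dg x k ≤ w x.1.1 k := by
  unfold dg; split_ifs
  · exact (w_pos _ _).le
  · exact le_rfl

lemma summable_dg (x : X) : Summable (dg x) :=
  Summable.of_nonneg_of_le (dg_nonneg x) (dg_le x) (by simpa using (hasSum_w x.1.1 0).summable)

lemma val_of_ne (x : X) {k : ℕ} (h : x.1.2.2 k ≠ 0) : x.1.2.2 k = F x.1.1 k x.1.2.1 :=
  (x.2 k).resolve_left h

/-- comparison of the metric with the digit sums -/
lemma key (x y : X) (hn : x.1.1 = y.1.1) :
    |S x - S y| ≤ 2 * dist x y ∧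
    dist x y ≤ |x.1.2.1 - y.1.2.1| + 2 * ((x.1.1 : ℝ) + 1) * |S x - S y| := by
  set n := x.1.1 with hx
  have hdist := dist_X x y
  by_cases hall : ∀ k, (x.1.2.2 k = 0 ↔ y.1.2.2 k = 0)
  · have hS : S x = S y := by
      unfold S
      refine tsum_congr fun k => ?_
      unfold dg
      rw [← hn]
      by_cases h : x.1.2.2 k = 0
      · rw [if_pos h, if_pos ((hall k).1 h)]
      · rw [if_neg h, if_neg (fun h' => h ((hall k).2 h'))]
    rw [hS, sub_self, abs_zero, mul_zero, add_zero]
    refine ⟨by have := dist_nonneg (x := x) (y := y); linarith, ?_⟩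
    rw [hdist, ← hn, ← hx, dist_self]
    refine max_le (abs_nonneg _) (max_le (le_of_eq (Real.dist_eq _ _)) ?_)
    rw [BoundedContinuousFunction.dist_le (abs_nonneg _)]
    intro k
    by_cases h : x.1.2.2 k = 0
    · rw [h, (hall k).1 h]; simp
    · have h' : y.1.2.2 k ≠ 0 := fun h' => h ((hall k).2 h')
      rw [val_of_ne x h, val_of_ne y h', ← hn, Real.dist_eq]
      exact F_lip _ _ _ _
  · push Not at hall
    -- first difference
    have hex : ∃ k, ¬ (x.1.2.2 k = 0 ↔ y.1.2.2 k = 0) := by
      obtain ⟨k, hk⟩ := hall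
      exact ⟨k, by tauto⟩
    classical
    set k := Nat.find hex with hk
    have hk1 : ¬ (x.1.2.2 k = 0 ↔ y.1.2.2 k = 0) := Nat.find_spec hex
    have hk2 : ∀ j < k, (x.1.2.2 j = 0 ↔ y.1.2.2 j = 0) := fun j hj => by
      have := Nat.find_min hex hj
      tauto
    have hwp := w_pos n k
    -- the k-th term
    have hdk : |dg x k - dg y k| = w n k := by
      unfold dg
      rw [← hn, ← hx]
      by_cases h : x.1.2.2 k = 0
      · have h' : y.1.2.2 k ≠ 0 := fun h' => hk1 (by tauto)
        rw [if_pos h, if_neg h', zero_sub, abs_neg, abs_of_pos hwp]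
      · have h' : y.1.2.2 k = 0 := by tauto
        rw [if_neg h, if_pos h', sub_zero, abs_of_pos hwp]
    have hd0 : ∀ j < k, dg x j - dg y j = 0 := by
      intro j hj
      unfold dg
      rw [← hn]
      by_cases h : x.1.2.2 j = 0
      · rw [if_pos h, if_pos ((hk2 j hj).1 h), sub_self]
      · rw [if_neg h, if_neg (fun h' => h ((hk2 j hj).2 h')), sub_self]
    have hdd : ∀ j, |dg x j - dg y j| ≤ w n j := by
      intro j
      have a1 := dg_nonneg x j
      have a2 := dg_nonneg y j
      have a3 := dg_le x j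
      have a4 := dg_le y j
      rw [← hn] at a4
      rw [abs_le]; constructor <;> linarith
    have hsum : Summable fun j => dg x j - dg y j := (summable_dg x).sub (summable_dg y)
    have hSS : S x - S y = ∑' j, (dg x j - dg y j) := ((summable_dg x).tsum_sub (summable_dg y)).symm
    have hsplit := hsum.sum_add_tsum_nat_add (k + 1)
    rw [Finset.sum_range_succ, Finset.sum_eq_zero (fun j hj => hd0 j (Finset.mem_range.1 hj)),
      zero_add] at hsplit
    have htail : |∑' j, (dg x (j + (k + 1)) - dg y (j + (k + 1)))| ≤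
        w n (k + 1) * (1 - 1 / (4 * ((n:ℝ) + 1)))⁻¹ := by
      rw [← Real.norm_eq_abs]
      exact tsum_of_norm_bounded (hasSum_w n (k + 1)) fun j => by
        rw [Real.norm_eq_abs]; exact hdd _
    have hq := q_lt n
    have hq0 : 0 < 1 / (4 * ((n:ℝ) + 1)) := by positivity
    have htail2 : w n (k + 1) * (1 - 1 / (4 * ((n:ℝ) + 1)))⁻¹ ≤ w n k / 3 := by
      have e : w n (k + 1) = w n k * (1 / (4 * ((n:ℝ) + 1))) := by
        rw [w_eq, w_eq, pow_succ]
      rw [e]
      set q := 1 / (4 * ((n:ℝ) + 1))
      have h1 : 0 < 1 - q := by linarith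
      rw [← div_eq_mul_inv, div_le_iff₀ h1]
      nlinarith
    set T := ∑' j, (dg x (j + (k + 1)) - dg y (j + (k + 1))) with hT
    have hT3 : |T| ≤ w n k / 3 := htail.trans htail2
    have hSe : S x - S y = (dg x k - dg y k) + T := by rw [hSS, ← hsplit]
    have hup : |S x - S y| ≤ 2 * w n k := by
      rw [hSe]
      refine (abs_add_le _ _).trans ?_
      rw [hdk]; linarith
    have hlo : w n k ≤ 2 * |S x - S y| := by
      have h1 : |dg x k - dg y k| ≤ |S x - S y| + |T| := by
        have : dg x k - dg y k = (S x - S y) - T := by rw [hSe]; ring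
        rw [this]
        exact abs_sub _ _
      rw [hdk] at h1
      linarith
    constructor
    · -- the distance is at least w n k
      have h1 : w n k ≤ dist x y := by
        rw [hdist]
        refine le_max_of_le_right (le_max_of_le_right ?_)
        refine le_trans ?_ (BoundedContinuousFunction.dist_coe_le_dist k)
        by_cases h : x.1.2.2 k = 0
        · have h' : y.1.2.2 k ≠ 0 := fun h' => hk1 (by tauto)
          rw [h, val_of_ne y h', ← hn, Real.dist_eq, zero_sub, abs_neg, abs_of_pos (F_pos _ _ _)]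
          exact F_ge _ _ _
        · have h' : y.1.2.2 k = 0 := by tauto
          rw [h', val_of_ne x h, Real.dist_eq, sub_zero, abs_of_pos (F_pos _ _ _)]
          exact F_ge _ _ _
      linarith
    · have hn0 : (0:ℝ) ≤ n := Nat.cast_nonneg n
      have h1 : dist x y ≤ |x.1.2.1 - y.1.2.1| + ((n:ℝ) + 1) * w n k := by
        have hnn : 0 ≤ ((n:ℝ) + 1) * w n k := by positivity
        have ha := abs_nonneg (x.1.2.1 - y.1.2.1)
        rw [hdist, ← hn, ← hx, dist_self]
        refine max_le (by linarith) (max_le ?_ ?_)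
        · rw [Real.dist_eq]; linarith
        rw [BoundedContinuousFunction.dist_le (by linarith)]
        intro j
        by_cases hj : (x.1.2.2 j = 0 ↔ y.1.2.2 j = 0)
        · by_cases h : x.1.2.2 j = 0
          · rw [h, hj.1 h]; simp; linarith
          · have h' : y.1.2.2 j ≠ 0 := fun h' => h (hj.2 h')
            rw [val_of_ne x h, val_of_ne y h', ← hn, Real.dist_eq]
            have := F_lip x.1.1 j x.1.2.1 y.1.2.1
            linarith
        · have hkj : k ≤ j := by
            by_contra hlt
            exact hj (hk2 j (by omega))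
          have hFw : ∀ t, F n j t ≤ ((n:ℝ) + 1) * w n k := fun t => by
            refine (F_le n j t).trans ?_
            have := w_anti n hkj
            gcongr
          by_cases h : x.1.2.2 j = 0
          · have h' : y.1.2.2 j ≠ 0 := fun h' => hj (by tauto)
            rw [h, val_of_ne y h', ← hn, Real.dist_eq, zero_sub, abs_neg, abs_of_pos (F_pos _ _ _)]
            have := hFw y.1.2.1
            linarith
          · have h' : y.1.2.2 j = 0 := by tauto
            rw [h', val_of_ne x h, Real.dist_eq, sub_zero, abs_of_pos (F_pos _ _ _)]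
            have := hFw x.1.2.1
            linarith
      have h2 : ((n:ℝ) + 1) * w n k ≤ 2 * ((n:ℝ) + 1) * |S x - S y| := by
        have : ((n:ℝ) + 1) * w n k ≤ ((n:ℝ) + 1) * (2 * |S x - S y|) := by gcongr
        linarith
      linarith

end Pool.Agent.H997.RNP
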