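import Pool.Agent.H997.RNP.Sp

/-!
The space admits no biLipschitz embedding into a space with the Radon-Nikodym property.
-/
namespace Pool.Agent.H997.RNP

open Filter Topology MeasureTheory Set BoundedContinuousFunction

/-- Radon-Nikodym property: Lipschitz maps from the line are a.e. differentiable -/
def IsRNP (V : Type*) [NormedAddCommGroup V] [NormedSpace ℝ V] : Prop :=
  ∀ f : ℝ → V, (∃ K : NNReal, LipschitzWith K f) → ∀ᵐ t : ℝ, DifferentiableAt ℝ f t

variable {V : Type*} [NormedAddCommGroup V] [NormedSpace ℝ V]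

lemma sd_compare (n k : ℕ) (φ : X → V) {c C : ℝ} (hc : 0 ≤ c) (hC : 0 ≤ C)
    (h : ∀ x y, c * dist x y ≤ ‖φ x - φ y‖ ∧ ‖φ x - φ y‖ ≤ C * dist x y)
    (a b : ℕ → Bool) (hk : a k ≠ b k) (hab : ∀ j, j ≠ k → a j = b j) (i : ℤ) :
    2 * ((c * ((n:ℝ) + 1) - C) * w n k) ≤
      sd (fun t => φ (pt n a t)) ((4 * (n + 1)) ^ k) i +
      sd (fun t => φ (pt n b t)) ((4 * (n + 1)) ^ k) i := by
  set N : ℕ := (4 * (n + 1)) ^ k with hN
  set t0 : ℝ := (i : ℝ) / N with ht0
  set t2 : ℝ := ((i : ℝ) + 1) / N with ht2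
  set t1 : ℝ := ((i : ℝ) + 1 / 2) / N with ht1
  have f0 : F n k t0 = w n k := F_grid n k i
  have f2 : F n k t2 = w n k := by
    have := F_grid n k (i + 1)
    push_cast at this
    rw [ht2, hN]
    push_cast
    exact this
  have f1 : F n k t1 = ((n:ℝ) + 1) * w n k := F_mid n k i
  have up : ∀ t, ‖φ (pt n a t) - φ (pt n b t)‖ ≤ C * F n k t := by
    intro t
    refine (h _ _).2.trans ?_
    have := dist_pt_le n a b t (r := F n k t) (F_pos n k t).le (fun j hj => by
      by_cases hjk : j = k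
      · rw [hjk]
      · exact absurd (hab j hjk) hj)
    gcongr
  have lo : c * F n k t1 ≤ ‖φ (pt n a t1) - φ (pt n b t1)‖ := by
    refine le_trans ?_ (h _ _).1
    have := le_dist_pt n a b t1 hk
    gcongr
  have u0 := up t0
  have u2 := up t2
  rw [f0] at u0
  rw [f2] at u2
  rw [f1] at lo
  have e : (2:ℝ) • (φ (pt n a t1) - φ (pt n b t1)) =
      (φ (pt n a t0) - φ (pt n b t0)) + (φ (pt n a t2) - φ (pt n b t2)) -
      (φ (pt n a t0) + φ (pt n a t2) - (2:ℝ) • φ (pt n a t1)) +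
      (φ (pt n b t0) + φ (pt n b t2) - (2:ℝ) • φ (pt n b t1)) := by
    rw [smul_sub]; abel
  have h2 : 2 * ‖φ (pt n a t1) - φ (pt n b t1)‖ ≤ C * w n k + C * w n k +
      sd (fun t => φ (pt n a t)) N i + sd (fun t => φ (pt n b t)) N i := by
    have : 2 * ‖φ (pt n a t1) - φ (pt n b t1)‖ = ‖(2:ℝ) • (φ (pt n a t1) - φ (pt n b t1))‖ := by
      rw [norm_smul, Real.norm_of_nonneg (by norm_num : (0:ℝ) ≤ 2)]
    rw [this, e]
    refine (norm_add_le _ _).trans (add_le_add ?_ (le_of_eq rfl))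
    refine (norm_sub_le _ _).trans (add_le_add ?_ (le_of_eq rfl))
    exact (norm_add_le _ _).trans (add_le_add u0 u2)
  linarith

theorem no_embed (hV : IsRNP V) (φ : X → V) {c C : ℝ} (hc : 0 < c) (hcC : c ≤ C)
    (h : ∀ x y, c * dist x y ≤ ‖φ x - φ y‖ ∧ ‖φ x - φ y‖ ≤ C * dist x y) : False := by
  have hC : 0 < C := hc.trans_le hcC
  obtain ⟨n, hn⟩ := exists_nat_gt (C / c)
  have hn' : C < c * ((n:ℝ) + 1) := by
    rw [div_lt_iff₀ hc] at hn
    nlinarith
  have hlip : ∀ a : ℕ → Bool, ∀ s t : ℝ,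
      ‖φ (pt n a s) - φ (pt n a t)‖ ≤ C * |s - t| := fun a s t =>
    (h _ _).2.trans (by have := dist_pt_line n a s t; gcongr)
  have hdiff : ∀ a : ℕ → Bool, ∀ᵐ t : ℝ, DifferentiableAt ℝ (fun t => φ (pt n a t)) t := by
    intro a
    refine hV _ ⟨⟨C, hC.le⟩, LipschitzWith.of_dist_le_mul fun s t => ?_⟩
    rw [dist_eq_norm, Real.dist_eq]
    exact hlip a s t
  set m : ℕ := 4 * (n + 1) with hm
  have hm1 : 1 < m := by omega
  set E : ℕ → (ℕ → Bool) → ℝ := fun k a =>
    ∑ i ∈ Finset.range (m ^ k), sd (fun t => φ (pt n a t)) (m ^ k) i with hE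
  have hElim : ∀ a, Tendsto (fun k => E k a) atTop (𝓝 0) := fun a =>
    (sum_sd (hlip a) (hdiff a)).comp (tendsto_pow_atTop_atTop_of_one_lt hm1)
  have hφ : Continuous φ := by
    have : LipschitzWith ⟨C, hC.le⟩ φ := LipschitzWith.of_dist_le_mul fun x y => by
      rw [dist_eq_norm]; exact (h x y).2
    exact this.continuous
  have hEc : ∀ k, Continuous (E k) := by
    intro k
    refine continuous_finsetSum _ fun i _ => ?_
    unfold sd
    have hp : ∀ t : ℝ, Continuous fun a : ℕ → Bool => φ (pt n a t) := fun t =>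
      hφ.comp (continuous_pt n t)
    exact (((hp _).add (hp _)).sub ((hp _).const_smul _)).norm
  set ε : ℝ := (1 / (m:ℝ)) * (c * ((n:ℝ) + 1) - C) / 2 with hε
  have hmpos : (0:ℝ) < m := by exact_mod_cast (by omega : 0 < m)
  have hεpos : 0 < ε := by
    have : 0 < c * ((n:ℝ) + 1) - C := by linarith
    positivity
  obtain ⟨j, a, ha⟩ := nonempty_interior_of_iUnion_of_closed
    (f := fun j : ℕ => {a : ℕ → Bool | ∀ k ≥ j, E k a ≤ ε})
    (fun j => by
      have : {a : ℕ → Bool | ∀ k ≥ j, E k a ≤ ε} = ⋂ k, ⋂ (_ : k ≥ j), {a | E k a ≤ ε} := by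
        ext a; simp
      rw [this]
      exact isClosed_iInter fun k => isClosed_iInter fun _ =>
        isClosed_le (hEc k) continuous_const)
    (by
      rw [Set.eq_univ_iff_forall]
      intro a
      rw [Set.mem_iUnion]
      obtain ⟨j, hj⟩ := eventually_atTop.1 ((hElim a).eventually (gt_mem_nhds hεpos))
      exact ⟨j, fun k hk => (hj k hk).le⟩)
  have hnhds : {a : ℕ → Bool | ∀ k ≥ j, E k a ≤ ε} ∈ 𝓝 a := mem_interior_iff_mem_nhds.1 ha
  have hseq : Tendsto (fun k : ℕ => Function.update a k (!(a k))) atTop (𝓝 a) := by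
    rw [tendsto_pi_nhds]
    intro i
    refine tendsto_const_nhds.congr' ?_
    filter_upwards [eventually_gt_atTop i] with k hk
    rw [Function.update_of_ne (by omega)]
  obtain ⟨k, hk1, hk2⟩ := ((hseq.eventually hnhds).and (eventually_ge_atTop j)).exists
  have ha' : ∀ k ≥ j, E k a ≤ ε := interior_subset ha
  have E1 : E k a ≤ ε := ha' k hk2
  have E2 : E k (Function.update a k (!(a k))) ≤ ε := hk1 k hk2
  set b : ℕ → Bool := Function.update a k (!(a k)) with hb
  have hkb : a k ≠ b k := by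
    rw [hb, Function.update_self]
    cases a k <;> simp
  have hjb : ∀ i, i ≠ k → a i = b i := by
    intro i hi
    rw [hb, Function.update_of_ne hi]
  have hsum : ∑ i ∈ Finset.range (m ^ k), 2 * ((c * ((n:ℝ) + 1) - C) * w n k) ≤ E k a + E k b := by
    rw [hE]
    simp only
    rw [← Finset.sum_add_distrib]
    exact Finset.sum_le_sum fun i _ => sd_compare n k φ hc.le hC.le h a b hkb hjb i
  rw [Finset.sum_const, Finset.card_range, nsmul_eq_mul] at hsum
  have hw : ((m ^ k : ℕ) : ℝ) * w n k = 1 / m := by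
    unfold w
    rw [hm]
    push_cast
    rw [pow_succ]
    field_simp
  have : ((m ^ k : ℕ) : ℝ) * (2 * ((c * ((n:ℝ) + 1) - C) * w n k)) =
      2 * ((1 / (m:ℝ)) * (c * ((n:ℝ) + 1) - C)) := by
    rw [← hw]; ring
  rw [this] at hsum
  have hpos : 0 < (1 / (m:ℝ)) * (c * ((n:ℝ) + 1) - C) := by
    have : 0 < c * ((n:ℝ) + 1) - C := by linarith
    positivity
  rw [hε] at E1 E2
  linarith

end Pool.Agent.H997.RNP
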