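import Mathlib

/-!
Second differences of a Lipschitz, almost everywhere differentiable map along fine grids.
-/
namespace Pool.Agent.H997.RNP

open Filter Topology MeasureTheory Set

/-- second differences along the grid of mesh `1/N` -/
noncomputable def sd {V : Type*} [NormedAddCommGroup V] [NormedSpace ℝ V] (u : ℝ → V) (N : ℕ)
    (i : ℤ) : ℝ :=
  ‖u ((i : ℝ) / N) + u (((i : ℝ) + 1) / N) - (2:ℝ) • u (((i : ℝ) + 1 / 2) / N)‖

lemma int_floor (g : ℤ → ℝ) (N : ℕ) (hN : 0 < N) :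
    ∫ t in (0:ℝ)..1, g ⌊(N:ℝ) * t⌋ = ∑ i ∈ Finset.range N, (1 / (N:ℝ)) * g i := by
  have hN' : (0:ℝ) < N := by exact_mod_cast hN
  have hc : ∀ i : ℕ, ∀ᵐ x : ℝ, x ∈ Set.uIoc ((i:ℝ) / N) (((i + 1 : ℕ):ℝ) / N) →
      g ⌊(N:ℝ) * x⌋ = g i := by
    intro i
    have h1 : ∀ᵐ x : ℝ, x ≠ ((i + 1 : ℕ):ℝ) / N := by
      have := (Set.countable_singleton (((i + 1 : ℕ):ℝ) / N)).ae_notMem (volume : Measure ℝ)
      filter_upwards [this] with x hx
      simpa using hx
    filter_upwards [h1] with x hx hxI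
    have hle : (i:ℝ) / N ≤ ((i + 1 : ℕ):ℝ) / N := by
      push_cast
      gcongr
      linarith
    rw [uIoc_of_le hle] at hxI
    have h2 : (i:ℝ) < N * x := by
      have := hxI.1
      rw [div_lt_iff₀ hN'] at this
      linarith
    have h3 : N * x < (i:ℝ) + 1 := by
      have := lt_of_le_of_ne hxI.2 hx
      rw [lt_div_iff₀ hN'] at this
      push_cast at this
      linarith
    have h4 : ⌊(N:ℝ) * x⌋ = (i:ℤ) := by
      rw [Int.floor_eq_iff]
      push_cast
      exact ⟨h2.le, h3⟩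
    rw [h4]
  have hint : ∀ i < N, IntervalIntegrable (fun t : ℝ => g ⌊(N:ℝ) * t⌋) volume
      ((i:ℝ) / N) (((i + 1 : ℕ):ℝ) / N) := by
    intro i _
    have : IntervalIntegrable (fun _ : ℝ => g i) volume ((i:ℝ) / N) (((i + 1 : ℕ):ℝ) / N) :=
      intervalIntegrable_const
    refine this.congr_ae ?_
    rw [EventuallyEq, ae_restrict_iff' measurableSet_uIoc]
    filter_upwards [hc i] with x hx hxI
    exact (hx hxI).symm
  have h := intervalIntegral.sum_integral_adjacent_intervals (f := fun t : ℝ => g ⌊(N:ℝ) * t⌋)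
    (μ := volume) (a := fun i : ℕ => (i:ℝ) / N) (n := N) hint
  have h0 : ((0:ℕ):ℝ) / N = 0 := by simp
  have h1 : ((N:ℕ):ℝ) / N = 1 := by field_simp
  rw [h0, h1] at h
  rw [← h]
  refine Finset.sum_congr rfl fun i _ => ?_
  rw [intervalIntegral.integral_congr_ae (hc i), intervalIntegral.integral_const, smul_eq_mul]
  congr 1
  push_cast
  field_simp
  ring

variable {V : Type*} [NormedAddCommGroup V] [NormedSpace ℝ V]

lemma sd_bound {u : ℝ → V} {C : ℝ} (hu : ∀ s t, ‖u s - u t‖ ≤ C * |s - t|) {N : ℕ}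
    (hN : 0 < N) (i : ℤ) : (N:ℝ) * sd u N i ≤ C := by
  have hN' : (0:ℝ) < N := by exact_mod_cast hN
  have h1 := hu ((i : ℝ) / N) (((i : ℝ) + 1 / 2) / N)
  have h2 := hu (((i : ℝ) + 1) / N) (((i : ℝ) + 1 / 2) / N)
  have e1 : |(i : ℝ) / N - ((i : ℝ) + 1 / 2) / N| = 1 / (2 * N) := by
    have : (i : ℝ) / N - ((i : ℝ) + 1 / 2) / N = -(1 / (2 * N)) := by field_simp; ring
    rw [this, abs_neg, abs_of_pos (by positivity)]
  have e2 : |((i : ℝ) + 1) / N - ((i : ℝ) + 1 / 2) / N| = 1 / (2 * N) := by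
    have : ((i : ℝ) + 1) / N - ((i : ℝ) + 1 / 2) / N = (1 / (2 * N)) := by field_simp; ring
    rw [this, abs_of_pos (by positivity)]
  rw [e1] at h1
  rw [e2] at h2
  have h3 : sd u N i ≤ C * (1 / (2 * N)) + C * (1 / (2 * N)) := by
    unfold sd
    have : u ((i : ℝ) / N) + u (((i : ℝ) + 1) / N) - (2:ℝ) • u (((i : ℝ) + 1 / 2) / N) =
        (u ((i : ℝ) / N) - u (((i : ℝ) + 1 / 2) / N)) +
        (u (((i : ℝ) + 1) / N) - u (((i : ℝ) + 1 / 2) / N)) := by
      rw [two_smul]; abel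
    rw [this]
    exact (norm_add_le _ _).trans (add_le_add h1 h2)
  calc (N:ℝ) * sd u N i ≤ N * (C * (1 / (2 * N)) + C * (1 / (2 * N))) := by gcongr
    _ = C := by field_simp; ring

lemma sd_nonneg (u : ℝ → V) (N : ℕ) (i : ℤ) : 0 ≤ sd u N i := norm_nonneg _

lemma sd_lim {u : ℝ → V} {t : ℝ} (hu : DifferentiableAt ℝ u t) :
    Tendsto (fun N : ℕ => (N:ℝ) * sd u N ⌊(N:ℝ) * t⌋) atTop (𝓝 0) := by
  have hd := hu.hasDerivAt
  set v := deriv u t
  rw [Metric.tendsto_atTop]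
  intro ε hε
  have ho := (hasDerivAt_iff_isLittleO.1 hd).def (show (0:ℝ) < ε / 8 by positivity)
  obtain ⟨δ, hδ, hδ2⟩ := Metric.eventually_nhds_iff.1 ho
  obtain ⟨N0, hN0⟩ := exists_nat_gt (1 / δ)
  refine ⟨N0 + 1, fun N hN => ?_⟩
  have hNpos : 0 < N := by omega
  have hN' : (0:ℝ) < N := by exact_mod_cast hNpos
  have hNδ : 1 / (N:ℝ) < δ := by
    rw [div_lt_iff₀ hN']
    rw [div_lt_iff₀ hδ] at hN0
    have : (N0:ℝ) ≤ N := by exact_mod_cast (by omega : N0 ≤ N)
    nlinarith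
  set i := ⌊(N:ℝ) * t⌋ with hi
  have hi1 : (i:ℝ) ≤ N * t := Int.floor_le _
  have hi2 : N * t < i + 1 := Int.lt_floor_add_one _
  have key : ∀ s : ℝ, |s - t| ≤ 1 / N → ‖u s - u t - (s - t) • v‖ ≤ ε / 8 * (1 / N) := by
    intro s hs
    have h := hδ2 (y := s) (by rw [Real.dist_eq]; exact lt_of_le_of_lt hs hNδ)
    rw [Real.norm_eq_abs] at h
    exact h.trans (by gcongr)
  have a0 : |(i:ℝ) / N - t| ≤ 1 / N := by
    have : (i:ℝ) / N - t = (i - N * t) / N := by field_simp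
    rw [this, abs_div, abs_of_pos hN']
    gcongr
    rw [abs_le]; constructor <;> linarith
  have a2 : |((i:ℝ) + 1) / N - t| ≤ 1 / N := by
    have : ((i:ℝ) + 1) / N - t = (i + 1 - N * t) / N := by field_simp
    rw [this, abs_div, abs_of_pos hN']
    gcongr
    rw [abs_le]; constructor <;> linarith
  have a1 : |((i:ℝ) + 1 / 2) / N - t| ≤ 1 / N := by
    have : ((i:ℝ) + 1 / 2) / N - t = (i + 1 / 2 - N * t) / N := by field_simp
    rw [this, abs_div, abs_of_pos hN']
    gcongr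
    rw [abs_le]; constructor <;> linarith
  have k0 := key _ a0
  have k1 := key _ a1
  have k2 := key _ a2
  have e : u ((i : ℝ) / N) + u (((i : ℝ) + 1) / N) - (2:ℝ) • u (((i : ℝ) + 1 / 2) / N) =
      (u ((i : ℝ) / N) - u t - ((i : ℝ) / N - t) • v) +
      (u (((i : ℝ) + 1) / N) - u t - (((i : ℝ) + 1) / N - t) • v) -
      (2:ℝ) • (u (((i : ℝ) + 1 / 2) / N) - u t - (((i : ℝ) + 1 / 2) / N - t) • v) := by
    have h2 : (2:ℝ) • (((i : ℝ) + 1 / 2) / N - t) • v =
        ((i : ℝ) / N - t) • v + (((i : ℝ) + 1) / N - t) • v := by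
      rw [smul_smul, ← add_smul]
      congr 1
      field_simp
      ring
    rw [smul_sub, smul_sub, h2, two_smul, two_smul]
    abel
  have hsd : sd u N i ≤ ε / 8 * (1 / N) + ε / 8 * (1 / N) + 2 * (ε / 8 * (1 / N)) := by
    unfold sd
    rw [e]
    refine (norm_sub_le _ _).trans (add_le_add ((norm_add_le _ _).trans (add_le_add k0 k2)) ?_)
    rw [norm_smul, Real.norm_of_nonneg (by norm_num : (0:ℝ) ≤ 2)]
    gcongr
  rw [Real.dist_eq, sub_zero, abs_of_nonneg (mul_nonneg hN'.le (sd_nonneg _ _ _))]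
  calc (N:ℝ) * sd u N i ≤ N * (ε / 8 * (1 / N) + ε / 8 * (1 / N) + 2 * (ε / 8 * (1 / N))) := by
        gcongr
    _ = ε / 2 := by field_simp; ring
    _ < ε := by linarith

/-- the sum of the second differences of a Lipschitz, a.e. differentiable map tends to `0` -/
theorem sum_sd {u : ℝ → V} {C : ℝ} (hu : ∀ s t, ‖u s - u t‖ ≤ C * |s - t|)
    (hd : ∀ᵐ t : ℝ, DifferentiableAt ℝ u t) :
    Tendsto (fun N : ℕ => ∑ i ∈ Finset.range N, sd u N i) atTop (𝓝 0) := by
  have h := intervalIntegral.tendsto_integral_filter_of_dominated_convergence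
    (μ := volume) (a := (0:ℝ)) (b := 1) (l := atTop)
    (F := fun (N : ℕ) (t : ℝ) => (N:ℝ) * sd u N ⌊(N:ℝ) * t⌋) (f := fun _ => (0:ℝ))
    (fun _ => C) ?_ ?_ ?_ ?_
  · rw [intervalIntegral.integral_zero] at h
    refine h.congr' ?_
    filter_upwards [eventually_gt_atTop 0] with N hN
    have hN' : (0:ℝ) < N := by exact_mod_cast hN
    have := int_floor (fun i => (N:ℝ) * sd u N i) N hN
    rw [this]
    refine Finset.sum_congr rfl fun i _ => ?_
    field_simp
  · refine Eventually.of_forall fun N => ?_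
    have : Measurable fun t : ℝ => (N:ℝ) * sd u N ⌊(N:ℝ) * t⌋ := by
      have h1 : Measurable fun t : ℝ => ⌊(N:ℝ) * t⌋ := (measurable_const.mul measurable_id).floor
      have h2 : Measurable fun i : ℤ => (N:ℝ) * sd u N i := measurable_from_top
      exact h2.comp h1
    exact this.aestronglyMeasurable
  · filter_upwards [eventually_gt_atTop 0] with N hN
    refine Eventually.of_forall fun t _ => ?_
    rw [Real.norm_of_nonneg (mul_nonneg (Nat.cast_nonneg _) (sd_nonneg _ _ _))]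
    exact sd_bound hu hN _
  · exact intervalIntegrable_const
  · filter_upwards [hd] with t ht _
    exact sd_lim ht

end Pool.Agent.H997.RNP
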