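import Pool.Agent.H997.RNP.SD

/-!
The space: in `ℕ × ℝ × ℓ^∞`, the points `(n, t, y)` with `y k ∈ {0, F n k t}` for all `k`.
-/
namespace Pool.Agent.H997.RNP

open Filter Topology MeasureTheory Set BoundedContinuousFunction

/-- the widths `(4(n+1))^{-(k+1)}` -/
noncomputable def w (n k : ℕ) : ℝ := 1 / (4 * ((n:ℝ) + 1)) ^ (k + 1)

/-- the oscillating functions `(4(n+1))^{-(k+1)} (1 + n sin²(π (4(n+1))^k t))` -/
noncomputable def F (n k : ℕ) (t : ℝ) : ℝ :=
  1 / (4 * ((n:ℝ) + 1)) ^ (k + 1) * (1 + n * Real.sin (Real.pi * (4 * ((n:ℝ) + 1)) ^ k * t) ^ 2)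

lemma w_pos (n k : ℕ) : 0 < w n k := by unfold w; positivity

lemma F_ge (n k : ℕ) (t : ℝ) : w n k ≤ F n k t := by
  unfold w F
  have : (0:ℝ) ≤ n * Real.sin (Real.pi * (4 * ((n:ℝ) + 1)) ^ k * t) ^ 2 := by positivity
  have h2 : (0:ℝ) < 1 / (4 * ((n:ℝ) + 1)) ^ (k + 1) := by positivity
  nlinarith

lemma F_le (n k : ℕ) (t : ℝ) : F n k t ≤ ((n:ℝ) + 1) * w n k := by
  unfold w F
  have h1 : Real.sin (Real.pi * (4 * ((n:ℝ) + 1)) ^ k * t) ^ 2 ≤ 1 := Real.sin_sq_le_one _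
  have h2 : (0:ℝ) < 1 / (4 * ((n:ℝ) + 1)) ^ (k + 1) := by positivity
  have h3 : (0:ℝ) ≤ n := Nat.cast_nonneg n
  have h4 : (n:ℝ) * Real.sin (Real.pi * (4 * ((n:ℝ) + 1)) ^ k * t) ^ 2 ≤ n * 1 := by gcongr
  nlinarith

lemma F_pos (n k : ℕ) (t : ℝ) : 0 < F n k t := (w_pos n k).trans_le (F_ge n k t)

lemma w_succ_le (n k : ℕ) : ((n:ℝ) + 1) * w n k ≤ 1 := by
  unfold w
  have h : (1:ℝ) ≤ (4 * ((n:ℝ) + 1)) ^ k := one_le_pow₀ (by
    have : (0:ℝ) ≤ n := Nat.cast_nonneg n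
    linarith)
  rw [mul_one_div, div_le_one (by positivity), pow_succ]
  have : (0:ℝ) ≤ n := Nat.cast_nonneg n
  nlinarith

lemma F_le_one (n k : ℕ) (t : ℝ) : F n k t ≤ 1 := (F_le n k t).trans (w_succ_le n k)

lemma w_anti (n : ℕ) {k j : ℕ} (h : k ≤ j) : w n j ≤ w n k := by
  unfold w
  have : (0:ℝ) ≤ n := Nat.cast_nonneg n
  apply one_div_le_one_div_of_le (by positivity)
  exact pow_le_pow_right₀ (by linarith) (by omega)

lemma F_lip (n k : ℕ) (t s : ℝ) : |F n k t - F n k s| ≤ |t - s| := by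
  have hn : (0:ℝ) ≤ n := Nat.cast_nonneg n
  set m : ℝ := 4 * ((n:ℝ) + 1) with hm
  have hmp : 0 < m := by positivity
  set A := Real.pi * m ^ k * t with hA
  set B := Real.pi * m ^ k * s with hB
  have h1 : F n k t - F n k s = 1 / m ^ (k + 1) * (n * (Real.sin A ^ 2 - Real.sin B ^ 2)) := by
    unfold F; rw [← hm]; ring
  have h2 : Real.sin A ^ 2 - Real.sin B ^ 2 = Real.sin (A + B) * Real.sin (A - B) := by
    rw [Real.sin_add, Real.sin_sub]
    have a := Real.sin_sq_add_cos_sq A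
    have b := Real.sin_sq_add_cos_sq B
    have ca : Real.cos A ^ 2 = 1 - Real.sin A ^ 2 := by linarith
    have cb : Real.cos B ^ 2 = 1 - Real.sin B ^ 2 := by linarith
    ring_nf
    rw [ca, cb]; ring
  have h3 : |Real.sin A ^ 2 - Real.sin B ^ 2| ≤ Real.pi * m ^ k * |t - s| := by
    rw [h2, abs_mul]
    have e1 : |Real.sin (A + B)| ≤ 1 := Real.abs_sin_le_one _
    have e2 : |Real.sin (A - B)| ≤ |A - B| := Real.abs_sin_le_abs
    have e3 : |A - B| = Real.pi * m ^ k * |t - s| := by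
      have : A - B = Real.pi * m ^ k * (t - s) := by rw [hA, hB]; ring
      rw [this, abs_mul, abs_of_pos (by positivity)]
    rw [← e3]
    calc |Real.sin (A + B)| * |Real.sin (A - B)| ≤ 1 * |A - B| := by gcongr
      _ = |A - B| := one_mul _
  rw [h1, abs_mul, abs_mul, abs_of_pos (by positivity : 0 < 1 / m ^ (k + 1)), abs_of_nonneg hn]
  calc 1 / m ^ (k + 1) * (n * |Real.sin A ^ 2 - Real.sin B ^ 2|)
      ≤ 1 / m ^ (k + 1) * (n * (Real.pi * m ^ k * |t - s|)) := by gcongr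
    _ = (n * Real.pi / m) * |t - s| := by rw [pow_succ]; field_simp
    _ ≤ 1 * |t - s| := by
        gcongr
        rw [div_le_one hmp, hm]
        have := Real.pi_le_four
        nlinarith
    _ = |t - s| := one_mul _

lemma F_grid (n k : ℕ) (i : ℤ) : F n k ((i:ℝ) / ((4 * (n + 1)) ^ k : ℕ)) = w n k := by
  unfold F w
  have h : Real.pi * (4 * ((n:ℝ) + 1)) ^ k * ((i:ℝ) / ((4 * (n + 1)) ^ k : ℕ)) = i * Real.pi := by
    push_cast; field_simp
  rw [h, Real.sin_int_mul_pi]; simp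

lemma F_mid (n k : ℕ) (i : ℤ) :
    F n k (((i:ℝ) + 1 / 2) / ((4 * (n + 1)) ^ k : ℕ)) = ((n:ℝ) + 1) * w n k := by
  unfold F w
  have h : Real.pi * (4 * ((n:ℝ) + 1)) ^ k * (((i:ℝ) + 1 / 2) / ((4 * (n + 1)) ^ k : ℕ)) =
      i * Real.pi + Real.pi / 2 := by
    push_cast; field_simp
  have h2 : Real.cos (i * Real.pi) ^ 2 = 1 := by
    have := Real.sin_sq_add_cos_sq (i * Real.pi)
    rw [Real.sin_int_mul_pi] at this
    linarith
  rw [h, Real.sin_add_pi_div_two, h2]; ring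

/-- the space -/
def X : Set (ℕ × ℝ × (ℕ →ᵇ ℝ)) := {x | ∀ k, x.2.2 k = 0 ∨ x.2.2 k = F x.1 k x.2.1}

lemma isClosed_X : IsClosed X := by
  have : X = ⋂ k, ({x : ℕ × ℝ × (ℕ →ᵇ ℝ) | x.2.2 k = 0} ∪
      {x : ℕ × ℝ × (ℕ →ᵇ ℝ) | x.2.2 k = F x.1 k x.2.1}) := by
    ext x; simp [X]
  rw [this]
  refine isClosed_iInter fun k => ?_
  have h1 : Continuous fun x : ℕ × ℝ × (ℕ →ᵇ ℝ) => x.2.2 k :=
    ((continuous_apply k).comp BoundedContinuousFunction.continuous_coe).comp continuous_snd.snd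
  have hc : Continuous fun x : ℕ × ℝ × (ℕ →ᵇ ℝ) => ((x.1 : ℕ) : ℝ) :=
    (continuous_of_discreteTopology (f := fun n : ℕ => (n:ℝ))).comp continuous_fst
  have ht : Continuous fun x : ℕ × ℝ × (ℕ →ᵇ ℝ) => x.2.1 := continuous_snd.fst
  have h2 : Continuous fun x : ℕ × ℝ × (ℕ →ᵇ ℝ) => F x.1 k x.2.1 := by
    unfold F
    refine Continuous.mul (Continuous.div continuous_const (by fun_prop) (fun x => by positivity)) ?_
    fun_prop
  exact (isClosed_eq h1 continuous_const).union (isClosed_eq h1 h2)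

instance : CompleteSpace X := isClosed_X.completeSpace_coe

/-- the coordinates in `ℓ^∞` -/
noncomputable def yv (n : ℕ) (a : ℕ → Bool) (t : ℝ) : ℕ →ᵇ ℝ :=
  BoundedContinuousFunction.ofNormedAddCommGroup (fun k => if a k then F n k t else 0)
    continuous_of_discreteTopology 1 (fun k => by
      by_cases h : a k
      · simp only [h, if_true]
        rw [Real.norm_of_nonneg (F_pos n k t).le]; exact F_le_one n k t
      · simp [h])

lemma yv_apply (n : ℕ) (a : ℕ → Bool) (t : ℝ) (k : ℕ) :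
    yv n a t k = if a k then F n k t else 0 := rfl

/-- the point with digits `a` -/
noncomputable def pt (n : ℕ) (a : ℕ → Bool) (t : ℝ) : X :=
  ⟨(n, t, yv n a t), fun k => by
    change yv n a t k = 0 ∨ yv n a t k = F n k t
    rw [yv_apply]
    by_cases h : a k <;> simp [h]⟩

lemma dist_X (x y : X) : dist x y =
    max (dist x.1.1 y.1.1) (max (dist x.1.2.1 y.1.2.1) (dist x.1.2.2 y.1.2.2)) := rfl

lemma dist_pt_line (n : ℕ) (a : ℕ → Bool) (s t : ℝ) : dist (pt n a s) (pt n a t) ≤ |s - t| := by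
  rw [dist_X]
  refine max_le (by simp [pt]) (max_le (le_of_eq (Real.dist_eq _ _)) ?_)
  rw [BoundedContinuousFunction.dist_le (abs_nonneg _)]
  intro k
  change dist (yv n a s k) (yv n a t k) ≤ _
  rw [yv_apply, yv_apply]
  by_cases h : a k
  · simp only [h, if_true]
    rw [Real.dist_eq]; exact F_lip n k s t
  · simp [h]

lemma dist_pt_le (n : ℕ) (a b : ℕ → Bool) (t : ℝ) {r : ℝ} (hr : 0 ≤ r)
    (h : ∀ k, a k ≠ b k → F n k t ≤ r) : dist (pt n a t) (pt n b t) ≤ r := by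
  rw [dist_X]
  refine max_le (by simpa [pt] using hr) (max_le (by simpa [pt] using hr) ?_)
  rw [BoundedContinuousFunction.dist_le hr]
  intro k
  change dist (yv n a t k) (yv n b t k) ≤ _
  rw [yv_apply, yv_apply]
  by_cases hk : a k = b k
  · rw [hk]; simpa using hr
  · have := h k hk
    have hp := F_pos n k t
    rcases Bool.eq_false_or_eq_true (a k) with ha | ha <;>
      rcases Bool.eq_false_or_eq_true (b k) with hb | hb <;>
      simp_all [Real.dist_eq, abs_of_pos]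

lemma le_dist_pt (n : ℕ) (a b : ℕ → Bool) (t : ℝ) {k : ℕ} (h : a k ≠ b k) :
    F n k t ≤ dist (pt n a t) (pt n b t) := by
  rw [dist_X]
  refine le_max_of_le_right (le_max_of_le_right ?_)
  have h1 : dist (yv n a t k) (yv n b t k) ≤ dist (yv n a t) (yv n b t) :=
    BoundedContinuousFunction.dist_coe_le_dist k
  refine le_trans ?_ h1
  rw [yv_apply, yv_apply]
  have hp := F_pos n k t
  rcases Bool.eq_false_or_eq_true (a k) with ha | ha <;>
    rcases Bool.eq_false_or_eq_true (b k) with hb | hb <;>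
    simp_all [Real.dist_eq, abs_of_pos]

lemma w_tendsto (n : ℕ) : Tendsto (fun k => ((n:ℝ) + 1) * w n k) atTop (𝓝 0) := by
  have h1 : Tendsto (fun k : ℕ => (1 / (4 * ((n:ℝ) + 1))) ^ (k + 1)) atTop (𝓝 0) := by
    refine (tendsto_add_atTop_iff_nat 1).2 (tendsto_pow_atTop_nhds_zero_of_lt_one (by positivity) ?_)
    rw [div_lt_one (by positivity)]
    have : (0:ℝ) ≤ n := Nat.cast_nonneg n
    linarith
  have h2 := h1.const_mul ((n:ℝ) + 1)
  rw [mul_zero] at h2
  refine h2.congr fun k => ?_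
  unfold w
  rw [one_div_pow]

lemma continuous_pt (n : ℕ) (t : ℝ) : Continuous fun a : ℕ → Bool => pt n a t := by
  rw [continuous_iff_continuousAt]
  intro a
  rw [ContinuousAt, Metric.tendsto_nhds]
  intro ε hε
  obtain ⟨k, hk⟩ := ((w_tendsto n).eventually (gt_mem_nhds hε)).exists
  have : ∀ᶠ b in 𝓝 a, ∀ j ∈ Finset.range k, b j = a j := by
    rw [Filter.eventually_all_finset]
    intro j _
    have hc : Tendsto (fun b : ℕ → Bool => b j) (𝓝 a) (𝓝 (a j)) := (continuous_apply j).tendsto a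
    rw [nhds_discrete Bool, tendsto_pure] at hc
    exact hc
  filter_upwards [this] with b hb
  refine lt_of_le_of_lt (dist_pt_le n b a t (r := ((n:ℝ) + 1) * w n k) ?_ ?_) hk
  · have := w_pos n k; positivity
  · intro j hj
    have hkj : k ≤ j := by
      by_contra hlt
      exact hj (hb j (Finset.mem_range.2 (by omega)))
    refine (F_le n j t).trans ?_
    have := w_anti n hkj
    gcongr

end Pool.Agent.H997.RNP
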